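import Pool.Agent.H380.BE.Hl

/-! BE-DOM (for helper380): the product Gaussian maximal function is dominated by the maximal
function over cubes. -/

set_option autoImplicit false

open Pool.Agent.W203.BE Pool.Agent.H380.BE MeasureTheory Metric Set
open scoped ENNReal

namespace Pool.Agent.H350.BE

theorem summ (n : ℕ) : Summable (fun k : ℕ => Real.exp (-((k : ℝ) ^ 2 / 20)) * ((k : ℝ) + 1) ^ n) := by
  have h1 : Summable (fun k : ℕ => (k : ℝ) ^ n * Real.exp (-1 * (k : ℝ))) := by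
    have := Real.summable_pow_mul_exp_neg_nat_mul n (r := 1) one_pos
    simpa using this
  have h2 := (summable_nat_add_iff 1).mpr h1
  have h3 := h2.mul_left (Real.exp 6)
  refine Summable.of_nonneg_of_le (fun k => by positivity) (fun k => ?_) h3
  have h4 : Real.exp (-((k : ℝ) ^ 2 / 20)) ≤ Real.exp 6 * Real.exp (-1 * ((k + 1 : ℕ) : ℝ)) := by
    rw [← Real.exp_add]
    apply Real.exp_le_exp.mpr
    push_cast
    nlinarith [sq_nonneg ((k : ℝ) - 10)]
  calc Real.exp (-((k : ℝ) ^ 2 / 20)) * ((k : ℝ) + 1) ^ n ≤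
        (Real.exp 6 * Real.exp (-1 * ((k + 1 : ℕ) : ℝ))) * ((k : ℝ) + 1) ^ n :=
        mul_le_mul_of_nonneg_right h4 (by positivity)
    _ = Real.exp 6 * (((k + 1 : ℕ) : ℝ) ^ n * Real.exp (-1 * ((k + 1 : ℕ) : ℝ))) := by
        push_cast
        ring

/-- the coefficients -/
noncomputable def co (n : ℕ) (t : ℝ) (k : ℕ) : ℝ≥0∞ :=
  ENNReal.ofReal (t⁻¹ ^ n * Real.exp (-((k : ℝ) ^ 2 / 20)))

theorem prod_mk {n : ℕ} (t : ℝ) (ht : 0 < t) (x y : Fin n → ℝ) :
    (∏ j, mk t (x j - y j)) =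
      ENNReal.ofReal (t⁻¹ ^ n * Real.exp (-(∑ j, (x j - y j) ^ 2 / (20 * t ^ 2)))) := by
  unfold mk
  rw [← ENNReal.ofReal_prod_of_nonneg (fun j _ => by positivity), Finset.prod_mul_distrib,
    Finset.prod_const, Finset.card_univ, Fintype.card_fin, ← Real.exp_sum, Finset.sum_neg_distrib]

theorem dist_sq {n : ℕ} (x y : Fin n → ℝ) : dist x y ^ 2 ≤ ∑ j, (x j - y j) ^ 2 := by
  have h0 : 0 ≤ ∑ j, (x j - y j) ^ 2 := Finset.sum_nonneg fun j _ => sq_nonneg _
  have h1 : dist x y ≤ Real.sqrt (∑ j, (x j - y j) ^ 2) := by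
    rw [dist_pi_le_iff (Real.sqrt_nonneg _)]
    intro j
    rw [Real.dist_eq]
    apply Real.abs_le_sqrt
    exact Finset.single_le_sum (f := fun j => (x j - y j) ^ 2) (fun i _ => sq_nonneg _)
      (Finset.mem_univ j)
  calc dist x y ^ 2 ≤ Real.sqrt (∑ j, (x j - y j) ^ 2) ^ 2 := pow_le_pow_left₀ dist_nonneg h1 2
    _ = _ := Real.sq_sqrt h0

theorem ptw {n : ℕ} (t : ℝ) (ht : 0 < t) (x y : Fin n → ℝ) :
    (∏ j, mk t (x j - y j)) ≤
      ∑' k : ℕ, co n t k * (closedBall x (((k : ℝ) + 1) * t)).indicator 1 y := by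
  rw [prod_mk t ht]
  set k : ℕ := ⌊dist x y / t⌋₊ with hk
  have hd : 0 ≤ dist x y / t := div_nonneg dist_nonneg ht.le
  have h1 : (k : ℝ) ≤ dist x y / t := Nat.floor_le hd
  have h2 : dist x y / t < (k : ℝ) + 1 := Nat.lt_floor_add_one _
  have hmem : y ∈ closedBall x (((k : ℝ) + 1) * t) := by
    rw [mem_closedBall, dist_comm]
    rw [div_lt_iff₀ ht] at h2
    exact h2.le
  refine le_trans ?_ (ENNReal.le_tsum k)
  rw [indicator_of_mem hmem, Pi.one_apply, mul_one]
  unfold co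
  apply ENNReal.ofReal_le_ofReal
  apply mul_le_mul_of_nonneg_left _ (by positivity)
  apply Real.exp_le_exp.mpr
  rw [neg_le_neg_iff, ← Finset.sum_div]
  have h3 : (k : ℝ) ^ 2 ≤ (∑ j, (x j - y j) ^ 2) / t ^ 2 := by
    calc (k : ℝ) ^ 2 ≤ (dist x y / t) ^ 2 := pow_le_pow_left₀ (Nat.cast_nonneg k) h1 2
      _ = dist x y ^ 2 / t ^ 2 := div_pow _ _ _
      _ ≤ _ := div_le_div_of_nonneg_right (dist_sq x y) (by positivity)
  calc (k : ℝ) ^ 2 / 20 ≤ ((∑ j, (x j - y j) ^ 2) / t ^ 2) / 20 :=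
        div_le_div_of_nonneg_right h3 (by norm_num)
    _ = _ := by rw [div_div, mul_comm]

theorem ball_le {n : ℕ} (f : (Fin n → ℝ) → ℝ≥0∞) (x : Fin n → ℝ) (r : ℝ) (hr : 0 < r) :
    ∫⁻ y in closedBall x r, f y ≤ ENNReal.ofReal (r ^ n) * HM f x := by
  have h1 : (∫⁻ y in closedBall x r, f y) / ENNReal.ofReal (r ^ n) ≤ HM f x := by
    unfold HM
    exact le_iSup (fun r : {r : ℝ // 0 < r} =>
      (∫⁻ y in closedBall x r, f y) / ENNReal.ofReal (r.1 ^ n)) ⟨r, hr⟩
  have h2 : ENNReal.ofReal (r ^ n) ≠ 0 := by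
    rw [Ne, ENNReal.ofReal_eq_zero, not_le]
    positivity
  rw [ENNReal.div_le_iff h2 ENNReal.ofReal_ne_top] at h1
  rw [mul_comm]
  exact h1

theorem t_DOM : S_DOM := by
  intro n
  set C : ℝ := 1 + ∑' k : ℕ, Real.exp (-((k : ℝ) ^ 2 / 20)) * ((k : ℝ) + 1) ^ n with hC
  have hS : 0 ≤ ∑' k : ℕ, Real.exp (-((k : ℝ) ^ 2 / 20)) * ((k : ℝ) + 1) ^ n :=
    tsum_nonneg fun k => by positivity
  refine ⟨C, by linarith, fun f hf x => ?_⟩
  unfold MM
  apply iSup_le
  rintro ⟨t, ht⟩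
  show ∫⁻ y, (∏ j, mk t (x j - y j)) * f y ≤ ENNReal.ofReal C * HM f x
  calc ∫⁻ y, (∏ j, mk t (x j - y j)) * f y ≤
        ∫⁻ y, ∑' k : ℕ, co n t k * (closedBall x (((k : ℝ) + 1) * t)).indicator f y := by
        apply lintegral_mono
        intro y
        show (∏ j, mk t (x j - y j)) * f y ≤
          ∑' k : ℕ, co n t k * (closedBall x (((k : ℝ) + 1) * t)).indicator f y
        refine (mul_le_mul_left (ptw t ht x y) (f y)).trans (le_of_eq ?_)
        rw [← ENNReal.tsum_mul_right]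
        congr 1
        ext k
        by_cases h : y ∈ closedBall x (((k : ℝ) + 1) * t)
        · rw [indicator_of_mem h, indicator_of_mem h, Pi.one_apply, mul_one]
        · rw [indicator_of_notMem h, indicator_of_notMem h, mul_zero, zero_mul]
    _ = ∑' k : ℕ, ∫⁻ y, co n t k * (closedBall x (((k : ℝ) + 1) * t)).indicator f y := by
        apply lintegral_tsum
        intro k
        exact ((hf.indicator measurableSet_closedBall).const_mul _).aemeasurable
    _ = ∑' k : ℕ, co n t k * ∫⁻ y in closedBall x (((k : ℝ) + 1) * t), f y := by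
        congr 1
        ext k
        rw [lintegral_const_mul _ (hf.indicator measurableSet_closedBall),
          lintegral_indicator measurableSet_closedBall]
    _ ≤ ∑' k : ℕ, ENNReal.ofReal (Real.exp (-((k : ℝ) ^ 2 / 20)) * ((k : ℝ) + 1) ^ n) * HM f x := by
        apply ENNReal.tsum_le_tsum
        intro k
        have h1 := ball_le f x (((k : ℝ) + 1) * t) (by positivity)
        refine (mul_le_mul_right h1 (co n t k)).trans (le_of_eq ?_)
        rw [← mul_assoc]
        congr 1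
        unfold co
        rw [← ENNReal.ofReal_mul (by positivity)]
        congr 1
        rw [mul_pow, inv_pow]
        field_simp
    _ = (∑' k : ℕ, ENNReal.ofReal (Real.exp (-((k : ℝ) ^ 2 / 20)) * ((k : ℝ) + 1) ^ n)) * HM f x :=
        ENNReal.tsum_mul_right
    _ ≤ ENNReal.ofReal C * HM f x := by
        apply mul_le_mul_left
        rw [← ENNReal.ofReal_tsum_of_nonneg (fun k => by positivity) (summ n)]
        apply ENNReal.ofReal_le_ofReal
        linarith

end Pool.Agent.H350.BE
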